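import Mathlib
import Pool.Agent.Y617.PC.Main

/-!
# Tree-like satisfiability of the F,G-fragment of PCTL: one formula scheme

Stronger form of `Undecidable`. There are fixed formulas `α, β, γ, δ, ε, ζ` such that it is
undecidable, and hard for all recursively enumerable sets, whether
`P(G(α ∧ (β ∨ (γ ∧ (P(F δ) = p ∧ P(F ε) = q))))) = 1 ∧ ζ` has a tree-like model, where only the two
probability constants `p = (1 + 2^(-m) / 2) / 32` and `q = (1 + 4^(-m) / 2) / 32` vary.
-/

set_option autoImplicit false

namespace Pool.Agent.Results.MP_1d78e3_lc.OneScheme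

open Pool.Agent.H502.Pc Pool.Agent.Y617.PC

/-- There are formulas `α, β, γ, δ, ε, ζ` of the F,G-fragment of PCTL such that for every recursively
enumerable set `S` there is a computable function `N` for which `n ∈ S` holds if and only if the
formula `scheme α β γ δ ε ζ p q` with `p = cst (N n)`, `q = cst (2 N n)` has a tree-like model, and
the Goedel number of this formula is computable from `n`. So every recursively enumerable set is
many-one reducible to the problem whether a formula has a tree-like model, and no algorithm decides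
this problem, even for the instances of one scheme. -/
theorem result :
    (∃ α β γ δ ε ζ : Form ℕ, (∀ S : ℕ → Prop, REPred S → ∃ N : ℕ → ℕ, Computable N ∧
      (Computable fun n => (scheme α β γ δ ε ζ (cst (N n)) (cst (2 * N n))).code) ∧
      ∀ n, S n ↔ HasTreeModel (scheme α β γ δ ε ζ (cst (N n)) (cst (2 * N n)))) ∧
      ¬ ComputablePred fun m : ℕ => HasTreeModel (scheme α β γ δ ε ζ (cst m) (cst (2 * m)))) ∧
    (∀ S : ℕ → Prop, REPred S → ManyOneReducible S
      (fun c : ℕ => ∃ φ : Form ℕ, φ.code = c ∧ HasTreeModel φ)) ∧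
    ¬ ∃ D : ℕ → Prop, ComputablePred D ∧ ∀ φ : Form ℕ, D φ.code ↔ HasTreeModel φ := by
  obtain ⟨α, β, γ, δ, ε, ζ, h⟩ := reduction
  refine ⟨⟨α, β, γ, δ, ε, ζ, h, fun hc => ?_⟩, fun S hS => ?_, undecidable⟩
  · obtain ⟨N, hN, _, h2⟩ := h _ (Pool.Agent.H502.PcSrc.u_partrec.dom_re)
    exact Pool.Agent.H502.PcSrc.u_not_computable
      (ComputablePred.computable_of_manyOneReducible ⟨N, hN, h2⟩ hc)
  · obtain ⟨N, _, h1, h2⟩ := h S hS
    refine ⟨_, h1, fun n => (h2 n).trans ⟨fun h3 => ⟨_, rfl, h3⟩, ?_⟩⟩
    rintro ⟨φ, hφ, h3⟩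
    rwa [Form.code_injective hφ] at h3

end Pool.Agent.Results.MP_1d78e3_lc.OneScheme
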